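import Pool.Agent.H92.SG.Stmts
import Pool.Agent.H4.SG.KL3B

/-!
# Module ABST: the abstract statement applied to the twisted system
-/

set_option autoImplicit false

namespace Pool.Agent.H49.SG

open Pool.Agent.H92.SG PowerSeries
open Pool.Agent.H4.SG (Om_add_left Om_add_right Om_smul_left Om_smul_right Om_congr Om_nat om3_rel
  cX_X cX_tX cX_eX constCoeff_tX constCoeff_eX pr_add_left)

section ext

variable {A : Type} [CommRing A] (N b : ℕ)

/-- Extension by zero of a vector on the knot strands and the extra strands. -/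
def ext : ((Fin N × Fin 2) ⊕ (Fin b × Fin 2) → A) →ₗ[A] (ℕ → V2 A) where
  toFun x := fun i p => if h : i < N then x (Sum.inl (⟨i, h⟩, p)) else
    if h' : i - N < b then x (Sum.inr (⟨i - N, h'⟩, p)) else 0
  map_add' x y := by
    funext i p; simp only [Pi.add_apply]; split_ifs <;> simp
  map_smul' r x := by
    funext i p; simp only [Pi.smul_apply, smul_eq_mul, RingHom.id_apply]; split_ifs <;> simp

theorem ext_lt (x : (Fin N × Fin 2) ⊕ (Fin b × Fin 2) → A) {i : ℕ} (h : i < N) (p : Fin 2) :
    ext N b x i p = x (Sum.inl (⟨i, h⟩, p)) := by simp [ext, h]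

theorem ext_inl (x : (Fin N × Fin 2) ⊕ (Fin b × Fin 2) → A) (i : Fin N) (p : Fin 2) :
    ext N b x i p = x (Sum.inl (i, p)) := by simp [ext]

theorem ext_inr (x : (Fin N × Fin 2) ⊕ (Fin b × Fin 2) → A) (i : Fin b) (p : Fin 2) :
    ext N b x (N + i) p = x (Sum.inr (i, p)) := by simp [ext]

theorem ext_ge (x : (Fin N × Fin 2) ⊕ (Fin b × Fin 2) → A) {i : ℕ} (h : N + b ≤ i) :
    ext N b x i = 0 := by
  have h1 : ¬ i < N := by omega
  have h2 : ¬ i - N < b := by omega
  funext p
  simp [ext, h1, h2]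

theorem ext_eq_zero {x : (Fin N × Fin 2) ⊕ (Fin b × Fin 2) → A} (h : ext N b x = 0) : x = 0 := by
  funext p
  rcases p with ⟨i, p⟩ | ⟨i, p⟩
  · rw [← ext_inl N b x i p, h]; rfl
  · rw [← ext_inr N b x i p, h]; rfl

end ext

theorem band_mem {N : ℕ} {x : B} (h : IsBand N x) : x ∈ Bn N := by
  obtain ⟨w, hw, i, hi, rfl | rfl⟩ := h
  · exact mul_mem (mul_mem hw (σ_mem_Bn hi)) (inv_mem hw)
  · exact mul_mem (mul_mem hw (inv_mem (σ_mem_Bn hi))) (inv_mem hw)

section Om

variable {R : Type} [CommRing R] {m : ℕ} (c : R →+* R) (t : Rˣ) (e : AddChar (ZMod m) R)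
  (a : ℕ → ZMod m)

theorem pr_zero_left (v : V2 R) : pr c 0 v = 0 := by
  simp [pr]

theorem pr_sum_left {ι : Type} (s : Finset ι) (f : ι → V2 R) (v : V2 R) :
    pr c (∑ i ∈ s, f i) v = ∑ i ∈ s, pr c (f i) v := by
  classical
  induction s using Finset.induction_on with
  | empty => simp [pr_zero_left]
  | insert i s hi ih => rw [Finset.sum_insert hi, Finset.sum_insert hi, pr_add_left, ih]

theorem Om_zero_left (N : ℕ) (y : ℕ → V2 R) : Om c t e N a 0 y = 0 := by
  have h := Om_smul_left c t e N a 0 0 y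
  rw [zero_smul, map_zero, zero_mul] at h
  exact h

theorem Om_zero_right (N : ℕ) (x : ℕ → V2 R) : Om c t e N a x 0 = 0 := by
  have h := Om_smul_right c t e N a 0 x 0
  rw [zero_smul, zero_mul] at h
  exact h

/-- Restriction of the form to the first `N` strands. -/
theorem Om_restrict (N b : ℕ) (u y : ℕ → V2 R) (hu : ∀ i, N ≤ i → u i = 0)
    (hs : ∑ i ∈ Finset.range N, u i = 0) : Om c t e (N + b) a u y = Om c t e N a u y := by
  unfold Om
  congr 1
  · symm
    refine Finset.sum_subset (Finset.range_subset_range.mpr (by omega)) fun i _ hi => ?_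
    rw [hu i (by simpa using hi), pr_zero_left]
  · congr 1
    symm
    refine Finset.sum_subset (Finset.range_subset_range.mpr (by omega)) fun j _ hj => ?_
    have hj' : N ≤ j := by simpa using hj
    have h1 : ∀ i ∈ Finset.range j, pr c (u i) (y j) - pr c (u j) (y i) = pr c (u i) (y j) := by
      intro i _
      rw [hu j hj', pr_zero_left, sub_zero]
    rw [Finset.sum_congr rfl h1, ← pr_sum_left]
    have h2 : ∑ i ∈ Finset.range j, u i = 0 := by
      rw [← hs]
      symm
      refine Finset.sum_subset (Finset.range_subset_range.mpr hj') fun i _ hi => ?_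
      exact hu i (by simpa using hi)
    rw [h2, pr_zero_left]

/-- Orthogonality of a vector on the first `N` strands with sum zero and a vector on the other
strands. -/
theorem Om_orth (N b : ℕ) (u y : ℕ → V2 R) (hu : ∀ i, N ≤ i → u i = 0)
    (hs : ∑ i ∈ Finset.range N, u i = 0) (hy : ∀ i < N, y i = 0) :
    Om c t e (N + b) a u y = 0 := by
  rw [Om_restrict c t e a N b u y hu hs,
    Om_congr c t e N a (x := u) (x' := u) (y := y) (y' := 0) (fun _ _ => rfl) (fun i hi => hy i hi),
    Om_zero_right]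

end Om

section lists

variable {R : Type} [CommRing R] {m : ℕ} (t : Rˣ) (e : AddChar (ZMod m) R) (a : ℕ → ZMod m)

/-- The twisted action as a linear map. -/
noncomputable def TL (hA : TwA) (x : B) : Module.End R (ℕ → V2 R) where
  toFun s := tw t e x a s
  map_add' s s' := hA.add R m t e x a s s'
  map_smul' r s := hA.smul R m t e x a r s

theorem dih_prod (l : List B) (hl : ∀ x ∈ l, dih (ZMod m) x a = a) :
    dih (ZMod m) l.prod a = a := by
  induction l with
  | nil => simp
  | cons x l ih =>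
    rw [List.prod_cons, map_mul, LinearEquiv.mul_apply, ih fun y hy => hl y (List.mem_cons_of_mem _ hy)]
    exact hl x List.mem_cons_self

theorem TL_prod (hA : TwA) (l : List B) (hl : ∀ x ∈ l, dih (ZMod m) x a = a) (s : ℕ → V2 R) :
    (l.map (TL t e a hA)).prod s = tw t e l.prod a s := by
  induction l with
  | nil =>
    rw [List.map_nil, List.prod_nil, List.prod_nil, hA.one]
    rfl
  | cons x l ih =>
    have hl' : ∀ y ∈ l, dih (ZMod m) y a = a := fun y hy => hl y (List.mem_cons_of_mem _ hy)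
    rw [List.map_cons, List.prod_cons, List.prod_cons, hA.mul, dih_prod a l hl', ← ih hl']
    rfl

theorem fix_prod (hA : TwA) (l : List B) (hl : ∀ x ∈ l, dih (ZMod m) x a = a) (r : R)
    (s : ℕ → V2 R) (hs : ∀ x ∈ l, ∃ w, tw t e x a s = s + r • w) :
    ∃ w, tw t e l.prod a s = s + r • w := by
  induction l with
  | nil => exact ⟨0, by rw [List.prod_nil, hA.one, smul_zero, add_zero]⟩
  | cons x l ih =>
    have hl' : ∀ y ∈ l, dih (ZMod m) y a = a := fun y hy => hl y (List.mem_cons_of_mem _ hy)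
    obtain ⟨w, hw⟩ := ih hl' fun y hy => hs y (List.mem_cons_of_mem _ hy)
    obtain ⟨w', hw'⟩ := hs x List.mem_cons_self
    refine ⟨w' + tw t e x a w, ?_⟩
    rw [List.prod_cons, hA.mul, dih_prod a l hl', hw, hA.add, hA.smul, hw', smul_add, add_assoc]

end lists

theorem om3_sq_ne : om3 ^ 2 ≠ 1 := by
  intro h
  have h1 : om3 = -2 := by linear_combination om3_rel - h
  rw [h1] at h
  norm_num at h

theorem cc_conj (x : PowerSeries ℂ) :
    constantCoeff (cX x) = (starRingEnd ℂ) (constantCoeff x) := by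
  unfold cX
  rw [← coeff_zero_eq_constantCoeff_apply, ← coeff_zero_eq_constantCoeff_apply, coeff_map]

theorem ABST_thm (hABSB : AbsBStmt) (hL4 : L4Stmt) (hA : TwA) (hB : TwB)
    (hTQ : TwBandStmt) (hN0 : N0TStmt) : AbsTStmt := by
  intro k N b κ l a hN hκ hl hprod hconn hfix
  have hmem : ∀ j : Fin l.length, IsBand (N + b) (l.get j) := fun j => hl _ (List.get_mem l j)
  have hu2 : IsUnit (2 : PowerSeries ℂ) := by
    have : (2 : PowerSeries ℂ) = C 2 := by rw [map_ofNat]
    rw [this]
    exact (isUnit_iff_ne_zero.2 (two_ne_zero : (2 : ℂ) ≠ 0)).map _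
  have hut : IsUnit (1 - ((tX : (PowerSeries ℂ)ˣ) : PowerSeries ℂ) ^ 2) := by
    rw [PowerSeries.isUnit_iff_constantCoeff, map_sub, map_pow, map_one, constCoeff_tX,
      isUnit_iff_ne_zero, sub_ne_zero]
    exact fun h => om3_sq_ne h.symm
  choose P Q U hU hPQ hW hP0 hQ0 using fun j : Fin l.length =>
    hTQ (PowerSeries ℂ) (3 ^ (k + 1)) tX (eX k) cX cX_tX (cX_eX k) hu2 hut (N + b) (l.get j) a
      (hmem j) (hfix _ (List.get_mem l j))
  obtain ⟨M, hM, hMe⟩ := hL4 (PowerSeries ℂ) cX (ℕ → V2 (PowerSeries ℂ)) 2 l.length P Q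
    (fun x y => Om cX tX (eX k) (N + b) a x y) (fun x x' y => Om_add_left _ _ _ _ _ _ _ _) U hU
    (fun j u y => hW j u y)
  have hκa : dih _ κ a = a := by
    rw [← hprod]
    exact dih_prod a l hfix
  -- the product of the maps is the action of `κ`
  have hprod' : ∀ x : ℕ → V2 (PowerSeries ℂ),
      (List.ofFn fun j => (1 : Module.End (PowerSeries ℂ) (ℕ → V2 (PowerSeries ℂ))) +
        P j ∘ₗ Q j).prod x = tw tX (eX k) κ a x := by
    intro x
    have h1 : l.map (TL tX (eX k) a hA) =
        List.ofFn fun j : Fin l.length => TL tX (eX k) a hA (l.get j) := by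
      conv_lhs => rw [← List.ofFn_get l]
      rw [List.map_ofFn]; rfl
    have h2 : (List.ofFn fun j => (1 : Module.End (PowerSeries ℂ) (ℕ → V2 (PowerSeries ℂ))) +
        P j ∘ₗ Q j) = l.map (TL tX (eX k) a hA) := by
      rw [h1]
      congr 1
      funext j
      refine LinearMap.ext fun s => ?_
      simp only [LinearMap.add_apply, Module.End.one_apply, LinearMap.comp_apply]
      exact (hPQ j s).symm
    rw [h2, TL_prod tX (eX k) a hA l hfix, hprod]
  have hform : ∀ x y : ℕ → V2 (PowerSeries ℂ),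
      Om cX tX (eX k) (N + b) a (tw tX (eX k) κ a x - x) y =
      sesq cX M (fun p => (Q p.1) x p.2) fun p => (Q p.1) y p.2 := by
    intro x y
    rw [← hMe x y, hprod' x]
  -- the map `D`
  let D : ((Fin N × Fin 2) ⊕ (Fin b × Fin 2) → PowerSeries ℂ) →ₗ[PowerSeries ℂ]
      (Fin l.length × Fin 2 → PowerSeries ℂ) :=
    { toFun := fun x p => Q p.1 (ext N b x) p.2
      map_add' := fun x y => by funext p; simp
      map_smul' := fun r x => by funext p; simp }
  have hformD : ∀ x y, sesq cX M (D x) (D y) =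
      Om cX tX (eX k) (N + b) a (tw tX (eX k) κ a (ext N b x) - ext N b x) (ext N b y) := by
    intro x y
    exact (hform _ _).symm
  -- the difference is supported on the knot strands and has sum zero
  have hsupp : ∀ (y : ℕ → V2 (PowerSeries ℂ)) (i : ℕ), N ≤ i →
      (tw tX (eX k) κ a y - y) i = 0 := by
    intro y i hi
    simp only [Pi.sub_apply]
    rw [hB.loc1 _ _ tX (eX k) N κ hκ a y i hi, sub_self]
  have hsum : ∀ y : ℕ → V2 (PowerSeries ℂ),
      ∑ i ∈ Finset.range N, (tw tX (eX k) κ a y - y) i = 0 := by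
    intro y
    simp only [Pi.sub_apply]
    rw [Finset.sum_sub_distrib, hB.sum _ _ tX (eX k) N κ hκ a y, sub_self]
  have hzero : ∀ x : (Fin N × Fin 2) ⊕ (Fin b × Fin 2) → PowerSeries ℂ,
      (∀ i : Fin N × Fin 2, x (Sum.inl i) = 0) → ∀ i < N, ext N b x i = 0 := by
    intro x hx i hi
    funext p
    rw [ext_lt N b x hi]; exact hx _
  have hfix0 : ∀ x : (Fin N × Fin 2) ⊕ (Fin b × Fin 2) → PowerSeries ℂ,
      (∀ i : Fin N × Fin 2, x (Sum.inl i) = 0) →
      tw tX (eX k) κ a (ext N b x) - ext N b x = 0 := by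
    intro x hx
    funext i
    by_cases hi : i < N
    · have h1 := hB.loc2 _ _ tX (eX k) N κ hκ a a (ext N b x) 0 (fun _ _ => rfl)
        (fun i hi => hzero x hx i hi) i hi
      have h2 : tw tX (eX k) κ a 0 = 0 := by
        have := hA.smul _ _ tX (eX k) κ a 0 0
        rw [zero_smul, zero_smul] at this
        exact this
      simp only [Pi.sub_apply]
      rw [h1, hzero x hx i hi, h2]
      simp
    · exact hsupp _ i (by omega)
  have hred : ∀ x : PowerSeries ℂ, constantCoeff x = 0 ↔ X ∣ x := fun x =>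
    PowerSeries.X_dvd_iff.symm
  obtain ⟨S, hS1, hS2⟩ := hABSB (PowerSeries ℂ) ℂ constantCoeff X
    (fun z => ⟨C z, by simp⟩) PowerSeries.X_prime hred cX (starRingEnd ℂ)
    cc_conj (fun x => Complex.conj_conj x) cX_X
    (Fin N × Fin 2) (Fin b × Fin 2) (Fin l.length × Fin 2) D M hM
    (by
      intro x hx y
      rw [hformD, hfix0 x hx, Om_zero_left])
    (by
      intro x hx y
      rw [hformD]
      exact Om_orth cX tX (eX k) a N b _ _ (hsupp _) (hsum _) (hzero x hx))
    (by
      intro x hx hDx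
      apply ext_eq_zero N b
      refine hN0 k (N + b) l a (fun z hz => band_mem (hl z hz)) hconn hfix (ext N b x)
        (fun i hi => ext_ge N b x hi) (hzero x hx 0 hN) ?_
      intro z hz
      obtain ⟨j, rfl⟩ := List.get_of_mem hz
      rw [hPQ j]
      have : Q j (ext N b x) = 0 := by
        funext p
        exact congrFun hDx (j, p)
      rw [this, map_zero, add_zero])
  set cur := LinearEquiv.curry ℂ ℂ (Fin N) (Fin 2) with hcur
  have hcur' : ∀ (v : Fin N × Fin 2 → ℂ) (i : Fin N) (p : Fin 2), cur v i p = v (i, p) :=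
    fun _ _ _ => rfl
  refine ⟨S.map (cur : (Fin N × Fin 2 → ℂ) →ₗ[ℂ] (Fin N → V2 ℂ)), ?_, ?_⟩
  · rintro v' ⟨v, hv, rfl⟩
    obtain ⟨n, x, y, h1, h2, h3⟩ := hS1 v hv
    set Y := ext N b y with hY
    set xh : ℕ → V2 (PowerSeries ℂ) := fun i p => if h : i < N then x (⟨i, h⟩, p) else 0 with hxh
    have hYx : ∀ i < N, Y i = ((X : PowerSeries ℂ) ^ n • xh) i := by
      intro i hi
      funext p
      rw [hY, ext_lt N b y hi, h2]
      simp [hxh, hi]
    choose d hd using h3
    -- all bands fix `Y` modulo `X ^ (n + 1)`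
    have hbands : ∀ z ∈ l, ∃ w, tw tX (eX k) z a Y = Y + (X : PowerSeries ℂ) ^ (n + 1) • w := by
      intro z hz
      obtain ⟨j, rfl⟩ := List.get_of_mem hz
      have h4 : Q j Y = (X : PowerSeries ℂ) ^ (n + 1) • fun p => d (j, p) := by
        funext p
        exact hd (j, p)
      exact ⟨P j fun p => d (j, p), by rw [hPQ j, h4, map_smul]⟩
    obtain ⟨w, hw⟩ := fix_prod tX (eX k) a hA l hfix _ Y hbands
    rw [hprod] at hw
    have hκx : ∀ i < N, (tw tX (eX k) κ a Y - Y) i =
        ((X : PowerSeries ℂ) ^ n • (tw tX (eX k) κ a xh - xh)) i := by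
      intro i hi
      have h5 := hB.loc2 _ _ tX (eX k) N κ hκ a a Y ((X : PowerSeries ℂ) ^ n • xh)
        (fun _ _ => rfl) hYx i hi
      rw [Pi.sub_apply, h5, hYx i hi, hA.smul, smul_sub, Pi.sub_apply]
    have hXn : (X : PowerSeries ℂ) ^ n ≠ 0 := pow_ne_zero _ PowerSeries.X_ne_zero
    have hdiv : ∀ i p, (X : PowerSeries ℂ) ∣ tw tX (eX k) κ a xh i p - xh i p := by
      intro i p
      by_cases hi : i < N
      · have h6 := congrFun (hκx i hi) p
        rw [hw, add_sub_cancel_left] at h6
        have h7 : (X : PowerSeries ℂ) ^ n * (X * w i p) =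
            X ^ n * (tw tX (eX k) κ a xh i p - xh i p) := by
          rw [← mul_assoc, ← pow_succ]
          exact h6
        exact ⟨w i p, (mul_left_cancel₀ hXn h7).symm⟩
      · have h8 := congrFun (hsupp xh i (by omega)) p
        have h9 : tw tX (eX k) κ a xh i p - xh i p = 0 := h8
        rw [h9]
        exact dvd_zero _
    refine ⟨xh, ?_, ?_, hdiv, ?_⟩
    · intro i p
      have : xh i p = x (i, p) := by simp [hxh]
      rw [this, h1]
      rfl
    · intro i hi
      funext p
      have : ¬ i < N := by omega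
      simp [hxh, this]
    · have e1 : Om cX tX (eX k) (N + b) a (tw tX (eX k) κ a Y - Y) Y =
          (X : PowerSeries ℂ) ^ n * ((X : PowerSeries ℂ) ^ n *
            Om cX tX (eX k) N a (tw tX (eX k) κ a xh - xh) xh) := by
        rw [Om_restrict cX tX (eX k) a N b _ _ (hsupp Y) (hsum Y),
          Om_congr cX tX (eX k) N a hκx hYx, Om_smul_left, Om_smul_right, map_pow, cX_X]
      have e2 : Om cX tX (eX k) (N + b) a (tw tX (eX k) κ a Y - Y) Y =
          (X : PowerSeries ℂ) ^ n * ((X : PowerSeries ℂ) ^ n * ((X : PowerSeries ℂ) ^ 2 *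
            sesq cX M d d)) := by
        rw [hform Y Y]
        have e3 : (fun p : Fin l.length × Fin 2 => Q p.1 Y p.2) =
            fun p => (X : PowerSeries ℂ) ^ (n + 1) * d p := by
          funext p
          exact hd p
        rw [e3]
        simp only [sesq, map_mul, map_pow, cX_X, Finset.mul_sum]
        refine Finset.sum_congr rfl fun p _ => Finset.sum_congr rfl fun q _ => ?_
        ring
      rw [e1] at e2
      exact ⟨_, mul_left_cancel₀ hXn (mul_left_cancel₀ hXn e2)⟩
  · intro T hT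
    have h5 := hS2 (T.comap (cur : (Fin N × Fin 2 → ℂ) →ₗ[ℂ] (Fin N → V2 ℂ))) (by
      intro x hx y
      rw [hformD, Om_nat constantCoeff cX (starRingEnd ℂ) cc_conj tX tC
        constCoeff_tX ?_ (eX k) (eC k) (constCoeff_eX k)]
      · have h6 : (fun i p => constantCoeff
            ((tw tX (eX k) κ a (ext N b x) - ext N b x) i p)) = 0 := by
          funext i p
          simp only [Pi.sub_apply, map_sub, Pi.zero_apply]
          have h7 := congrFun (congrFun (hB.nat (PowerSeries ℂ) ℂ constantCoeff _ tX tC (eX k)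
            (eC k) constCoeff_tX (constCoeff_eX k) κ a (ext N b x)) i) p
          rw [← h7, hT _ hx (fun i p => constantCoeff (ext N b x i p))
            (fun i => by funext p; rw [ext_inl]; rfl), sub_self]
        rw [h6, Om_zero_left]
      · have h8 : constantCoeff (((tX⁻¹ : (PowerSeries ℂ)ˣ) : PowerSeries ℂ)) *
            constantCoeff ((tX : (PowerSeries ℂ)ˣ) : PowerSeries ℂ) = 1 := by
          rw [← map_mul, Units.inv_mul, map_one]
        rw [constCoeff_tX] at h8
        have h9 : ((tC⁻¹ : ℂˣ) : ℂ) * (tC : ℂ) = 1 := Units.inv_mul tC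
        exact mul_right_cancel₀ tC.ne_zero (h8.trans h9.symm))
    have hT' : Module.finrank ℂ (T.comap (cur : (Fin N × Fin 2 → ℂ) →ₗ[ℂ] (Fin N → V2 ℂ))) =
        Module.finrank ℂ T := by
      rw [Submodule.comap_equiv_eq_map_symm]
      exact LinearEquiv.finrank_map_eq cur.symm T
    have hS' : Module.finrank ℂ (S.map (cur : (Fin N × Fin 2 → ℂ) →ₗ[ℂ] (Fin N → V2 ℂ))) =
        Module.finrank ℂ S := LinearEquiv.finrank_map_eq cur S
    rw [hT'] at h5
    rw [hS']
    simp only [Fintype.card_prod, Fintype.card_fin] at h5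
    omega

end Pool.Agent.H49.SG
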